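import Pool.Agent.Helper25.HV.Rough
import Pool.Agent.Helper66.HG.RM

/-!
# Block RM2: mean squares of monomials
-/

set_option autoImplicit false

open MeasureTheory Set Filter Topology

namespace Pool.Agent.Helper95.HV

open Pool.Agent.Helper25.HV Pool.Agent.Helper69.HG Pool.Agent.Helper85.SV

lemma Ls_ge : 2 ≤ Ls := by
  unfold Ls
  have h1 : 0 < Real.log 2 := Real.log_pos (by norm_num)
  have h2 : 0 < Real.log 4 := Real.log_pos (by norm_num)
  have : 0 ≤ 2 * (Real.log 4 + 4) / Real.log 2 := by positivity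
  linarith

lemma PbD_cont (D : Dat) (T : ℝ) (i : ℕ) : Continuous (PbD D T i) := by
  unfold PbD
  apply continuous_finset_sum
  intro p hp
  by_cases h : (p : ℂ) = 0
  · have h0 : ∀ t : ℝ, (-(1 / 2 + Complex.I * t) : ℂ) ≠ 0 := by
      intro t ht
      have h1 := congrArg Complex.re ht
      simp at h1
    simp_rw [h]
    have : (fun t : ℝ => (0 : ℂ) ^ (-(1 / 2 + Complex.I * t) : ℂ)) = fun _ => 0 := by
      ext t
      exact Complex.zero_cpow (h0 t)
    rw [this]
    exact continuous_const
  · exact Continuous.const_cpow (by fun_prop) (Or.inl h)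

theorem rm2 : RM2 := by
  classical
  intro D hD
  have hL := Ls_ge
  have hS1 : 1 ≤ D.S := hD.S0
  have hSr : (1:ℝ) ≤ D.S := by exact_mod_cast hS1
  have hSp : (0:ℝ) < D.S := by linarith
  refine ⟨28 * ((D.S : ℝ) ^ D.S * (12 * Ls) ^ D.S), 2, by positivity, ?_⟩
  intro T hT k i hi hS
  have hT1 : 1 < T := by linarith
  have hT0 : 0 < T := by linarith
  set A : Fin k → Finset ℕ := fun j => (AAD D T).filter (fun p => ixD D T p = i j) with hA
  have hAd : ∀ j, ∀ p ∈ A j, Adm D T p ∧ ixD D T p = i j := by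
    intro j p hp
    obtain ⟨h1, h2⟩ := Finset.mem_filter.1 hp
    exact ⟨(mem_AAD hD hT1).1 h1, h2⟩
  have hk : k ≤ D.S := by
    refine le_trans ?_ hS
    calc k = ∑ _j : Fin k, 1 := by simp
      _ ≤ ∑ j, i j := Finset.sum_le_sum fun j _ => (hi j).1
  have h := Pool.Agent.Helper66.HG.rm A (fun j p hp => (hAd j p hp).1.1) (fun _ _ => 1) hT0 ?_ (3 / 2 * T)
  · have hcont : Continuous fun t : ℝ => (∏ j, ‖PbD D T (i j) t‖) ^ 2 := by
      have := fun j => PbD_cont D T (i j)
      fun_prop
    have e1 : ∀ t : ℝ, (∏ j, ‖PbD D T (i j) t‖) ^ 2 =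
        ‖∏ j, ∑ p ∈ A j, (1:ℂ) * (p : ℂ) ^ (-((1 / 2 : ℂ) + t * Complex.I))‖ ^ 2 := by
      intro t
      rw [norm_prod]
      congr 1
      refine Finset.prod_congr rfl fun j _ => ?_
      congr 1
      unfold PbD
      refine Finset.sum_congr rfl fun p _ => ?_
      rw [one_mul, mul_comm Complex.I]
    rw [intervalIntegral.integral_of_le (by linarith), ← integral_Icc_eq_integral_Ioc]
    calc ∫ t in Icc T (2 * T), (∏ j, ‖PbD D T (i j) t‖) ^ 2
        ≤ ∫ t in Icc (3 / 2 * T - T) (3 / 2 * T + T), (∏ j, ‖PbD D T (i j) t‖) ^ 2 := by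
          refine setIntegral_mono_set (hcont.continuousOn.integrableOn_compact isCompact_Icc) ?_ ?_
          · exact Filter.Eventually.of_forall fun t => by positivity
          · exact HasSubset.Subset.eventuallyLE (Set.Icc_subset_Icc (by linarith) (by linarith))
      _ = ∫ t in Icc (3 / 2 * T - T) (3 / 2 * T + T),
            ‖∏ j, ∑ p ∈ A j, (1:ℂ) * (p : ℂ) ^ (-((1 / 2 : ℂ) + t * Complex.I))‖ ^ 2 := by
          refine integral_congr_ae (Filter.Eventually.of_forall fun t => e1 t)
      _ ≤ 28 * T * ((Fintype.card (Fin k) : ℝ) ^ (Fintype.card (Fin k)) * ∏ j, ∑ p ∈ A j, ‖(1:ℂ)‖ ^ 2 / p) := h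
      _ ≤ 28 * T * ((D.S : ℝ) ^ D.S * (12 * Ls) ^ D.S) := by
          apply mul_le_mul_of_nonneg_left _ (by positivity)
          rw [Fintype.card_fin]
          apply mul_le_mul _ _ (Finset.prod_nonneg fun j _ => Finset.sum_nonneg fun p _ => by positivity) (by positivity)
          · have h1 : k ^ k ≤ D.S ^ D.S := by
              rcases Nat.eq_zero_or_pos k with h0 | h0
              · rw [h0, pow_zero]
                exact Nat.one_le_pow _ _ (by omega)
              · exact (Nat.pow_le_pow_left hk k).trans (Nat.pow_le_pow_right (by omega) hk)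
            exact_mod_cast h1
          · calc ∏ j, ∑ p ∈ A j, ‖(1:ℂ)‖ ^ 2 / (p : ℝ) ≤ ∏ _j : Fin k, (12 * Ls) := by
                  apply Finset.prod_le_prod (fun j _ => Finset.sum_nonneg fun p _ => by positivity)
                  intro j _
                  simp only [norm_one, one_pow]
                  exact mertV hT1 fun p hp => ⟨(hAd j p hp).1.1, (hAd j p hp).1.big hD hT1⟩
              _ = (12 * Ls) ^ k := by simp
              _ ≤ (12 * Ls) ^ D.S := pow_le_pow_right₀ (by linarith) hk
      _ = _ := by ring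
  · intro f hf
    rw [Fintype.mem_piFinset] at hf
    rw [Nat.cast_prod]
    calc ∏ j, (f j : ℝ) ≤ ∏ j, T ^ ((i j : ℝ) / D.S) := by
          apply Finset.prod_le_prod (fun _ _ => Nat.cast_nonneg _)
          intro j _
          obtain ⟨h1, h2⟩ := hAd j _ (hf j)
          have h3 := le_ixD hD hT1 h1.pos
          rwa [h2] at h3
      _ = T ^ (((∑ j, i j : ℕ) : ℝ) / D.S) := by
          rw [← Real.rpow_sum_of_pos hT0, ← Finset.sum_div]
          push_cast
          rfl
      _ ≤ T ^ (1:ℝ) := by
          apply Real.rpow_le_rpow_of_exponent_le hT1.le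
          rw [div_le_one hSp]
          exact_mod_cast hS
      _ = T := Real.rpow_one T

end Pool.Agent.Helper95.HV
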